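import Pool.Agent.J6H81.TuranLimit.Core

/-!
Finite vertex sets: a covering system on `n` points gives systems on arbitrarily many points for a
slightly larger uniformity (a random map to the `n` points; the points which are alone in their
fibre).
-/

set_option autoImplicit false

open Finset Filter Topology

namespace Pool.Agent.J6H81.TuranLimit

open Pool.Agent.H688R3.TuranGen Pool.Agent.H613T Pool.Agent.H120R2.Clique

/-! ### monotonicity for finite vertex sets -/

/-- the relative sizes of the least systems increase with the number of points -/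
theorem c_ratio_mono {r m i n : ℕ} (hi : r ≤ i) (hn : i ≤ n) :
    c r m i / (i.choose r : ℝ) ≤ c r m n / (n.choose r : ℝ) := by
  have h1 := ratio_antitone r m (show i - r ≤ n - r by omega)
  simp only [Nat.sub_add_cancel hi, Nat.sub_add_cancel (hi.trans hn)] at h1
  have p1 := choose_pos' hi
  have p2 := choose_pos' (hi.trans hn)
  unfold c
  rw [sub_div, sub_div, div_self p1.ne', div_self p2.ne']
  linarith

/-- systems of relative size `δ` on all vertex sets with at most `n` points -/
def TB (n R k : ℕ) (δ : ℝ) : Prop :=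
  ∀ m ≤ n, ∃ F : Finset (Finset (Fin m)), CovS univ R k F ∧ (F.card : ℝ) ≤ δ * (m.choose k : ℝ)

theorem tb_self {n R k : ℕ} (hn : k ≤ n) :
    TB n R k (c k (k + R) n / (n.choose k : ℝ)) := by
  intro m hm
  obtain ⟨F, hF, hFc⟩ := exists_cov (r := k) (m := k + R) (by omega) m
  refine ⟨F, ⟨fun Z hZ => ⟨subset_univ _, hF.1 Z hZ⟩, fun Y _ hY => hF.2 Y hY⟩, ?_⟩
  rw [hFc]
  rcases Nat.lt_or_ge m k with h | h
  · unfold c
    rw [Nat.choose_eq_zero_of_lt h]
    have : (0 : ℝ) ≤ ex m k (k + R) := Nat.cast_nonneg _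
    simp only [Nat.cast_zero, mul_zero]
    linarith
  · have h1 := c_ratio_mono (m := k + R) h hm
    have h2 := choose_pos' h
    rwa [div_le_iff₀ h2] at h1

section
variable {V : Type} [Fintype V] [DecidableEq V]

theorem transport_one {R k : ℕ} (B : Finset V) {F : Finset (Finset (Fin B.card))}
    (hF : CovS univ R k F) : ∃ G : Finset (Finset V), CovS B R k G ∧ G.card ≤ F.card := by
  obtain ⟨hF1, hF2⟩ := hF
  set e : Fin B.card ≃ B := B.equivFin.symm with he
  set f : Fin B.card ↪ V := e.toEmbedding.trans (Function.Embedding.subtype _) with hf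
  have hfB : ∀ i, f i ∈ B := fun i => (e i).2
  have hfs : ∀ v ∈ B, ∃ i, f i = v := by
    intro v hv
    refine ⟨e.symm ⟨v, hv⟩, ?_⟩
    simp [hf]
  refine ⟨F.image (fun Z => Z.map f), ⟨?_, ?_⟩, Finset.card_image_le⟩
  · intro Z hZ
    obtain ⟨W, hW, rfl⟩ := Finset.mem_image.mp hZ
    refine ⟨?_, ?_⟩
    · intro v hv
      obtain ⟨i, _, rfl⟩ := Finset.mem_map.mp hv
      exact hfB i
    · rw [Finset.card_map]
      exact (hF1 W hW).2
  · intro Y hYB hY
    have h1 : (univ.filter fun i => f i ∈ Y).map f = Y := by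
      ext v
      rw [Finset.mem_map]
      constructor
      · rintro ⟨i, hi, rfl⟩
        exact (Finset.mem_filter.mp hi).2
      · intro hv
        obtain ⟨i, rfl⟩ := hfs v (hYB hv)
        exact ⟨i, Finset.mem_filter.mpr ⟨Finset.mem_univ _, hv⟩, rfl⟩
    have h2 : (univ.filter fun i => f i ∈ Y).card = k + R := by
      rw [← Finset.card_map f, h1, hY]
    obtain ⟨Z, hZ, hZY⟩ := hF2 _ (Finset.subset_univ _) h2
    refine ⟨Z.map f, Finset.mem_image_of_mem _ hZ, ?_⟩
    rw [← h1]
    exact Finset.map_subset_map.mpr hZY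

end

theorem TB.succ {n R k : ℕ} {δ : ℝ} (h : TB n R k δ) : TB n R (k + 1) δ := by
  intro m hm
  have h1 : ∀ v : Fin m, ∃ G : Finset (Finset (Fin m)), CovS (Finset.Iio v) R k G ∧
      (G.card : ℝ) ≤ δ * ((v : ℕ).choose k : ℝ) := by
    intro v
    have hv : (Finset.Iio v).card = (v : ℕ) := Fin.card_Iio _
    obtain ⟨F, hF1, hF2⟩ := h (Finset.Iio v).card (by rw [hv]; omega)
    obtain ⟨G, hG1, hG2⟩ := transport_one (Finset.Iio v) hF1
    refine ⟨G, hG1, ?_⟩
    have h2 : (G.card : ℝ) ≤ F.card := by exact_mod_cast hG2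
    have h3 : δ * ((Finset.Iio v).card.choose k : ℝ) = δ * ((v : ℕ).choose k : ℝ) := by rw [hv]
    exact (h2.trans hF2).trans_eq h3
  choose G hG1 hG2 using h1
  refine ⟨univ.biUnion fun v => (G v).image (insert v), ⟨?_, ?_⟩, ?_⟩
  · intro Z hZ
    simp only [mem_biUnion, mem_univ, true_and, mem_image] at hZ
    obtain ⟨v, Z', hZ', rfl⟩ := hZ
    obtain ⟨h2, h3⟩ := (hG1 v).1 Z' hZ'
    refine ⟨subset_univ _, ?_⟩
    rw [card_insert_of_notMem, h3]
    intro hm
    exact absurd (Finset.mem_Iio.1 (h2 hm)) (lt_irrefl _)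
  · intro W _ hW
    have hne : W.Nonempty := by
      rw [← card_pos]
      omega
    set v := W.max' hne with hv
    have hvW : v ∈ W := W.max'_mem hne
    obtain ⟨Z, hZ1, hZ2⟩ := (hG1 v).2 (W.erase v) (by
      intro u hu
      rw [mem_erase] at hu
      exact Finset.mem_Iio.2 (lt_of_le_of_ne (W.le_max' u hu.2) hu.1)) (by
      rw [card_erase_of_mem hvW]
      omega)
    refine ⟨insert v Z, ?_, ?_⟩
    · simp only [mem_biUnion, mem_univ, true_and, mem_image]
      exact ⟨v, Z, hZ1, rfl⟩
    · intro u hu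
      rcases mem_insert.1 hu with rfl | hu
      · exact hvW
      · exact (mem_erase.1 (hZ2 hu)).2
  · calc ((univ.biUnion fun v => (G v).image (insert v)).card : ℝ)
        ≤ ((∑ v : Fin m, (G v).card : ℕ) : ℝ) := by
          exact_mod_cast (card_biUnion_le.trans (sum_le_sum fun v _ => card_image_le))
      _ = ∑ v : Fin m, ((G v).card : ℝ) := by push_cast; rfl
      _ ≤ ∑ v : Fin m, δ * ((v : ℕ).choose k : ℝ) := sum_le_sum fun v _ => hG2 v
      _ = δ * ((∑ v ∈ range m, v.choose k : ℕ) : ℝ) := by
          rw [← mul_sum, ← Fin.sum_univ_eq_sum_range (fun v => v.choose k) m]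
          push_cast
          rfl
      _ = _ := by rw [sum_choose_aux]

theorem TB.of_le {n R k k' : ℕ} {δ : ℝ} (h : TB n R k δ) (hk : k ≤ k') : TB n R k' δ := by
  induction k', hk using Nat.le_induction with
  | base => exact h
  | succ m _ ih => exact ih.succ

/-! ### points alone in their fibre -/

section
variable {N n : ℕ}

open Classical in
/-- the points of `B` which are alone in their fibre -/
noncomputable def Zs (f : Fin N → Fin n) (B : Finset (Fin N)) : Finset (Fin N) :=
  B.filter fun x => ∀ y ∈ B, f y = f x → y = x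

theorem mem_Zs {f : Fin N → Fin n} {B : Finset (Fin N)} {x : Fin N} :
    x ∈ Zs f B ↔ x ∈ B ∧ ∀ y ∈ B, f y = f x → y = x := by
  unfold Zs
  rw [mem_filter]

theorem Zs_inj (f : Fin N → Fin n) (B : Finset (Fin N)) :
    Set.InjOn f (Zs f B : Set (Fin N)) := by
  intro x hx y hy hxy
  exact (mem_Zs.1 (mem_coe.1 hy)).2 x (mem_Zs.1 (mem_coe.1 hx)).1 hxy

theorem card_Zs (f : Fin N → Fin n) (B : Finset (Fin N)) :
    2 * (B.image f).card ≤ B.card + (Zs f B).card := by
  classical
  have h1 : B.card = ∑ w ∈ B.image f, (B.filter fun x => f x = w).card :=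
    Finset.card_eq_sum_card_image f B
  have h2 : ((B.image f).filter fun w => (B.filter fun x => f x = w).card = 1).card ≤
      (Zs f B).card := by
    refine Finset.card_le_card_of_surjOn f ?_
    intro w hw
    rw [mem_coe, mem_filter, mem_image] at hw
    obtain ⟨⟨x, hx, rfl⟩, hc⟩ := hw
    refine ⟨x, ?_, rfl⟩
    rw [mem_coe, mem_Zs]
    refine ⟨hx, fun y hy hyx => ?_⟩
    obtain ⟨z, hz⟩ := Finset.card_eq_one.1 hc
    have e1 : x ∈ B.filter fun u => f u = f x := mem_filter.2 ⟨hx, rfl⟩
    have e2 : y ∈ B.filter fun u => f u = f x := mem_filter.2 ⟨hy, hyx⟩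
    rw [hz, mem_singleton] at e1 e2
    rw [e1, e2]
  have h3 : ∑ w ∈ B.image f, 2 ≤ ∑ w ∈ B.image f, ((B.filter fun x => f x = w).card +
      if (B.filter fun x => f x = w).card = 1 then 1 else 0) := by
    refine sum_le_sum fun w hw => ?_
    have h4 : 0 < (B.filter fun x => f x = w).card := by
      rw [card_pos]
      obtain ⟨x, hx, rfl⟩ := mem_image.1 hw
      exact ⟨x, mem_filter.2 ⟨hx, rfl⟩⟩
    split_ifs with h5 <;> omega
  rw [sum_const, smul_eq_mul, sum_add_distrib, ← h1, ← card_filter] at h3
  omega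

open Classical in
/-- the family of a map and a relabelling -/
noncomputable def fam (r s K : ℕ) (T : ℕ → Finset (Finset (Fin n))) (f : Fin N → Fin n)
    (π : Equiv.Perm (Fin n)) : Finset (Finset (Fin N)) :=
  (powersetCard K univ).filter fun B => (B.image f).card ≤ s ∨
    (r ≤ (Zs f B).card ∧ ((Zs f B).image f).map π.toEmbedding ∈ T (Zs f B).card)

theorem fam_cov {r s K R : ℕ} (hs : K + 2 * R + r ≤ 2 * (s + 1))
    {T : ℕ → Finset (Finset (Fin n))} (hT : ∀ j, r ≤ j → CovS univ R j (T j))
    (f : Fin N → Fin n) (π : Equiv.Perm (Fin n)) : Cov K (K + R) (fam r s K T f π) := by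
  classical
  constructor
  · intro e he
    unfold fam at he
    rw [mem_filter, mem_powersetCard] at he
    exact he.1.2
  · intro S hS
    by_cases hc : (S.image f).card ≤ s
    · obtain ⟨B, hB, hBc⟩ := exists_subset_card_eq (s := S) (n := K) (by omega)
      refine ⟨B, ?_, hB⟩
      unfold fam
      rw [mem_filter, mem_powersetCard]
      exact ⟨⟨subset_univ _, hBc⟩, Or.inl ((card_le_card (image_subset_image hB)).trans hc)⟩
    · have h1 := card_Zs f S
      have h2 : r + R ≤ (Zs f S).card := by omega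
      obtain ⟨j, hj⟩ : ∃ j, (Zs f S).card = j + R := ⟨(Zs f S).card - R, by omega⟩
      have hrj : r ≤ j := by omega
      have hcard : (((Zs f S).image f).map π.toEmbedding).card = j + R := by
        rw [card_map, card_image_of_injOn (Zs_inj f S), hj]
      obtain ⟨W, hW, hWS⟩ := (hT j hrj).2 _ (subset_univ _) hcard
      have hWc := ((hT j hrj).1 W hW).2
      set Z' := (Zs f S).filter fun x => π (f x) ∈ W with hZ'
      have hZ'sub : Z' ⊆ Zs f S := filter_subset _ _
      have hZ'im : (Z'.image f).map π.toEmbedding = W := by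
        ext w
        rw [Finset.mem_map]
        constructor
        · rintro ⟨u, hu, rfl⟩
          obtain ⟨x, hx, rfl⟩ := mem_image.1 hu
          exact (mem_filter.1 hx).2
        · intro hw
          obtain ⟨u, hu, rfl⟩ := Finset.mem_map.1 (hWS hw)
          obtain ⟨x, hx, rfl⟩ := mem_image.1 hu
          exact ⟨f x, mem_image.2 ⟨x, mem_filter.2 ⟨hx, hw⟩, rfl⟩, rfl⟩
      have hZ'c : Z'.card = j := by
        rw [← hWc, ← hZ'im, card_map, card_image_of_injOn]
        exact (Zs_inj f S).mono (coe_subset.2 hZ'sub)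
      have hZS : Zs f S ⊆ S := fun x hx => (mem_Zs.1 hx).1
      set B := S \ (Zs f S \ Z') with hB
      have hBS : B ⊆ S := sdiff_subset
      have hBc : B.card = K := by
        rw [hB, card_sdiff_of_subset (sdiff_subset.trans hZS), card_sdiff_of_subset hZ'sub, hS,
          hj, hZ'c]
        omega
      have hZB : Zs f B = Z' := by
        ext x
        rw [mem_Zs]
        constructor
        · rintro ⟨hx, hu⟩
          have hxS := hBS hx
          have hxZ : x ∈ Zs f S := by
            rw [mem_Zs]
            refine ⟨hxS, fun y hy hyx => ?_⟩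
            by_contra hne
            have hyZ : y ∉ Zs f S := by
              intro hyZ
              exact hne ((mem_Zs.1 hyZ).2 x hxS hyx.symm).symm
            have hyB : y ∈ B := by
              rw [hB, Finset.mem_sdiff]
              exact ⟨hy, fun h => hyZ (Finset.mem_sdiff.1 h).1⟩
            exact hne (hu y hyB hyx)
          by_contra hxZ'
          rw [hB, Finset.mem_sdiff] at hx
          exact hx.2 (Finset.mem_sdiff.2 ⟨hxZ, hxZ'⟩)
        · intro hx
          have hxZ := hZ'sub hx
          refine ⟨?_, fun y hy hyx => (mem_Zs.1 hxZ).2 y (hBS hy) hyx⟩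
          rw [hB, Finset.mem_sdiff]
          exact ⟨hZS hxZ, fun h => (Finset.mem_sdiff.1 h).2 hx⟩
      refine ⟨B, ?_, hBS⟩
      unfold fam
      rw [mem_filter, mem_powersetCard]
      refine ⟨⟨subset_univ _, hBc⟩, Or.inr ?_⟩
      rw [hZB, hZ'im, hZ'c]
      exact ⟨hrj, hW⟩

/-- few maps have a small image on a given set -/
theorem count_small {s : ℕ} (hs : s ≤ n) (B : Finset (Fin N)) :
    ((univ.filter fun f : Fin N → Fin n => (B.image f).card ≤ s).card : ℝ) ≤
      (n.choose s : ℝ) * ((s : ℝ) / n) ^ B.card * (Fintype.card (Fin N → Fin n) : ℝ) := by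
  classical
  have h1 : (univ.filter fun f : Fin N → Fin n => (B.image f).card ≤ s) ⊆
      (powersetCard s (univ : Finset (Fin n))).biUnion fun W =>
        Fintype.piFinset fun x : Fin N => if x ∈ B then W else univ := by
    intro f hf
    rw [mem_filter] at hf
    obtain ⟨W, hW1, hW2⟩ := exists_superset_card_eq hf.2 (by rw [Fintype.card_fin]; exact hs)
    rw [mem_biUnion]
    refine ⟨W, mem_powersetCard.2 ⟨subset_univ _, hW2⟩, ?_⟩
    rw [Fintype.mem_piFinset]
    intro x
    split_ifs with hx
    · exact hW1 (mem_image_of_mem f hx)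
    · exact mem_univ _
  have h2 : ∀ W ∈ powersetCard s (univ : Finset (Fin n)),
      (Fintype.piFinset fun x : Fin N => if x ∈ B then W else univ).card =
        s ^ B.card * n ^ (N - B.card) := by
    intro W hW
    rw [Fintype.card_piFinset]
    have h3 : ∀ x : Fin N, (if x ∈ B then W else (univ : Finset (Fin n))).card =
        if x ∈ B then s else n := by
      intro x
      split_ifs
      · exact (mem_powersetCard.1 hW).2
      · rw [card_univ, Fintype.card_fin]
    rw [Finset.prod_congr rfl fun x _ => h3 x, Finset.prod_ite, prod_const, prod_const]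
    congr 2
    · rw [Finset.filter_mem_eq_inter, univ_inter]
    · have : (univ.filter fun x => x ∉ B) = Bᶜ := by ext x; simp
      rw [this, card_compl, Fintype.card_fin]
  have h4 : (univ.filter fun f : Fin N → Fin n => (B.image f).card ≤ s).card ≤
      n.choose s * (s ^ B.card * n ^ (N - B.card)) := by
    refine (card_le_card h1).trans (card_biUnion_le.trans ?_)
    rw [sum_congr rfl h2, sum_const, card_powersetCard, card_univ, Fintype.card_fin, smul_eq_mul]
  have h5 : ((univ.filter fun f : Fin N → Fin n => (B.image f).card ≤ s).card : ℝ) ≤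
      (n.choose s : ℝ) * ((s : ℝ) ^ B.card * (n : ℝ) ^ (N - B.card)) := by exact_mod_cast h4
  refine h5.trans ?_
  have hBN : B.card ≤ N := by
    have := card_le_univ B
    rwa [Fintype.card_fin] at this
  rw [Fintype.card_fun, Fintype.card_fin, Fintype.card_fin, mul_assoc]
  apply mul_le_mul_of_nonneg_left _ (Nat.cast_nonneg _)
  rcases Nat.eq_zero_or_pos n with hn | hn
  · subst hn
    have hs0 : s = 0 := by omega
    subst hs0
    rcases Nat.eq_zero_or_pos B.card with hb | hb
    · simp [hb]
    · have hN : 0 < N := by omega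
      simp [hb.ne', hN.ne']
  · have hn' : (0 : ℝ) < n := by exact_mod_cast hn
    have h6 : (n : ℝ) ^ N = (n : ℝ) ^ B.card * (n : ℝ) ^ (N - B.card) := by
      rw [← pow_add]
      congr 1
      omega
    push_cast
    rw [h6, div_pow]
    apply le_of_eq
    field_simp

open Classical in
/-- **Systems on `n` points give systems on all vertex sets.** -/
theorem collapse {r s K R n : ℕ} (hn : 0 < n) (hr : r ≤ n) (hs : K + 2 * R + r ≤ 2 * (s + 1)) (hsn : s ≤ n) :
    t K (K + R) ≤ (n.choose s : ℝ) * ((s : ℝ) / n) ^ K + c r (r + R) n / (n.choose r : ℝ) := by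
  set δ : ℝ := c r (r + R) n / (n.choose r : ℝ) with hδ
  have hδ0 : 0 ≤ δ := div_nonneg (c_nonneg (by omega) n) (Nat.cast_nonneg _)
  have hTB : ∀ j, r ≤ j → ∃ F : Finset (Finset (Fin n)), CovS univ R j F ∧
      (F.card : ℝ) ≤ δ * (n.choose j : ℝ) := fun j hj =>
    ((tb_self (R := R) hr).of_le hj) n le_rfl
  have hex : ∀ j, ∃ F : Finset (Finset (Fin n)), r ≤ j → CovS univ R j F ∧
      (F.card : ℝ) ≤ δ * (n.choose j : ℝ) := by
    intro j
    by_cases hj : r ≤ j
    · obtain ⟨F, hF⟩ := hTB j hj
      exact ⟨F, fun _ => hF⟩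
    · exact ⟨∅, fun h => absurd h hj⟩
  choose T hT using hex
  set P : ℝ := (n.choose s : ℝ) * ((s : ℝ) / n) ^ K with hP
  have hP0 : 0 ≤ P := by positivity
  refine le_of_tendsto (tendsto_c K (K + R)) ?_
  filter_upwards [eventually_ge_atTop K] with N hN
  rw [div_le_iff₀ (choose_pos' hN)]
  -- the average size
  haveI : Nonempty (Fin N → Fin n) := ⟨fun _ => ⟨0, hn⟩⟩
  have hsum := Pool.Agent.H369R2.TD.Two.sum_card_le
    (Ω := (Fin N → Fin n) × Equiv.Perm (Fin n)) (powersetCard K (univ : Finset (Fin N)))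
    (fun ω => fam r s K T ω.1 ω.2) (c := P + δ)
    (fun B => univ.filter fun ω : (Fin N → Fin n) × Equiv.Perm (Fin n) =>
      (B.image ω.1).card ≤ s ∨ (r ≤ (Zs ω.1 B).card ∧
        ((Zs ω.1 B).image ω.1).map ω.2.toEmbedding ∈ T (Zs ω.1 B).card)) ?_ ?_
  · by_contra hcon
    push Not at hcon
    have h2 : ∑ _ω : (Fin N → Fin n) × Equiv.Perm (Fin n), (P + δ) * (N.choose K : ℝ) <
        ∑ ω : (Fin N → Fin n) × Equiv.Perm (Fin n), ((fam r s K T ω.1 ω.2).card : ℝ) :=
      sum_lt_sum_of_nonempty univ_nonempty fun ω _ =>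
        lt_of_lt_of_le hcon (c_le_card (fam_cov hs (fun j hj => (hT j hj).1) ω.1 ω.2))
    rw [sum_const, nsmul_eq_mul, card_univ] at h2
    rw [card_powersetCard, card_univ, Fintype.card_fin] at hsum
    have : (P + δ) * (Fintype.card ((Fin N → Fin n) × Equiv.Perm (Fin n)) : ℝ) *
        (N.choose K : ℝ) = (Fintype.card ((Fin N → Fin n) × Equiv.Perm (Fin n)) : ℝ) *
          ((P + δ) * (N.choose K : ℝ)) := by ring
    linarith
  · intro B hB
    have hBc := (mem_powersetCard.1 hB).2
    have h3 : (univ.filter fun ω : (Fin N → Fin n) × Equiv.Perm (Fin n) =>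
        (B.image ω.1).card ≤ s ∨ (r ≤ (Zs ω.1 B).card ∧
        ((Zs ω.1 B).image ω.1).map ω.2.toEmbedding ∈ T (Zs ω.1 B).card)) ⊆
        ((univ.filter fun f : Fin N → Fin n => (B.image f).card ≤ s) ×ˢ univ) ∪
        (univ.filter fun ω : (Fin N → Fin n) × Equiv.Perm (Fin n) => r ≤ (Zs ω.1 B).card ∧
        ((Zs ω.1 B).image ω.1).map ω.2.toEmbedding ∈ T (Zs ω.1 B).card) := by
      intro ω hω
      rw [mem_filter] at hω
      rw [mem_union, mem_product, mem_filter, mem_filter]
      rcases hω.2 with h | h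
      · exact Or.inl ⟨⟨mem_univ _, h⟩, mem_univ _⟩
      · exact Or.inr ⟨mem_univ _, h⟩
    have h4 : ((univ.filter fun ω : (Fin N → Fin n) × Equiv.Perm (Fin n) =>
        r ≤ (Zs ω.1 B).card ∧
        ((Zs ω.1 B).image ω.1).map ω.2.toEmbedding ∈ T (Zs ω.1 B).card).card : ℝ) ≤
        δ * (Fintype.card ((Fin N → Fin n) × Equiv.Perm (Fin n)) : ℝ) := by
      have h5 : (univ.filter fun ω : (Fin N → Fin n) × Equiv.Perm (Fin n) =>
          r ≤ (Zs ω.1 B).card ∧
          ((Zs ω.1 B).image ω.1).map ω.2.toEmbedding ∈ T (Zs ω.1 B).card).card =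
          ∑ f : Fin N → Fin n, (univ.filter fun π : Equiv.Perm (Fin n) =>
            r ≤ (Zs f B).card ∧
            ((Zs f B).image f).map π.toEmbedding ∈ T (Zs f B).card).card := by
        simp_rw [card_filter]
        rw [Fintype.sum_prod_type]
      have h6 : ∀ f : Fin N → Fin n, ((univ.filter fun π : Equiv.Perm (Fin n) =>
            r ≤ (Zs f B).card ∧
            ((Zs f B).image f).map π.toEmbedding ∈ T (Zs f B).card).card : ℝ) ≤
            δ * (Fintype.card (Equiv.Perm (Fin n)) : ℝ) := by
        intro f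
        by_cases hc : r ≤ (Zs f B).card
        · have h7 : (univ.filter fun π : Equiv.Perm (Fin n) => r ≤ (Zs f B).card ∧
            ((Zs f B).image f).map π.toEmbedding ∈ T (Zs f B).card) =
            (univ.filter fun π : Equiv.Perm (Fin n) =>
            ((Zs f B).image f).map π.toEmbedding ∈ T (Zs f B).card) := by
            ext π
            simp [hc]
          rw [h7]
          have h8 := hT _ hc
          exact Pool.Agent.H369R2.TD.perm_count (T (Zs f B).card)
            (fun Z hZ => (h8.1.1 Z hZ).2) h8.2 _ (card_image_of_injOn (Zs_inj f B))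
        · have h7 : (univ.filter fun π : Equiv.Perm (Fin n) => r ≤ (Zs f B).card ∧
            ((Zs f B).image f).map π.toEmbedding ∈ T (Zs f B).card) = ∅ := by
            ext π
            simp [hc]
          rw [h7, card_empty]
          push_cast
          positivity
      rw [h5]
      push_cast
      calc ∑ f : Fin N → Fin n, ((univ.filter fun π : Equiv.Perm (Fin n) =>
            r ≤ (Zs f B).card ∧
            ((Zs f B).image f).map π.toEmbedding ∈ T (Zs f B).card).card : ℝ)
          ≤ ∑ _f : Fin N → Fin n, δ * (Fintype.card (Equiv.Perm (Fin n)) : ℝ) :=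
            sum_le_sum fun f _ => h6 f
        _ = δ * (Fintype.card ((Fin N → Fin n) × Equiv.Perm (Fin n)) : ℝ) := by
            rw [sum_const, nsmul_eq_mul, card_univ, Fintype.card_prod]
            push_cast
            ring
    have h9 := count_small hsn B
    rw [hBc] at h9
    calc _ ≤ (((((univ.filter fun f : Fin N → Fin n => (B.image f).card ≤ s) ×ˢ
            (univ : Finset (Equiv.Perm (Fin n)))) ∪
        (univ.filter fun ω : (Fin N → Fin n) × Equiv.Perm (Fin n) => r ≤ (Zs ω.1 B).card ∧
        ((Zs ω.1 B).image ω.1).map ω.2.toEmbedding ∈ T (Zs ω.1 B).card)).card : ℕ) : ℝ) := by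
          exact_mod_cast card_le_card h3
      _ ≤ ((((univ.filter fun f : Fin N → Fin n => (B.image f).card ≤ s) ×ˢ
            (univ : Finset (Equiv.Perm (Fin n)))).card +
        (univ.filter fun ω : (Fin N → Fin n) × Equiv.Perm (Fin n) => r ≤ (Zs ω.1 B).card ∧
        ((Zs ω.1 B).image ω.1).map ω.2.toEmbedding ∈ T (Zs ω.1 B).card).card : ℕ) : ℝ) := by
          exact_mod_cast card_union_le _ _
      _ ≤ P * (Fintype.card ((Fin N → Fin n) × Equiv.Perm (Fin n)) : ℝ) +
          δ * (Fintype.card ((Fin N → Fin n) × Equiv.Perm (Fin n)) : ℝ) := by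
          push_cast
          refine add_le_add ?_ h4
          rw [card_product, card_univ, Fintype.card_prod]
          push_cast
          rw [← mul_assoc]
          exact mul_le_mul_of_nonneg_right h9 (Nat.cast_nonneg _)
      _ = _ := by ring
  · intro ω B
    unfold fam
    rw [mem_filter, mem_filter]
    simp

end

end Pool.Agent.J6H81.TuranLimit
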