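import Pool.Agent.W724.TG.Iter
import Pool.Agent.W724.TG.Lim
import Pool.Agent.R81.UDC.Num

/-!
The normalised covering density `B R k = C(k+R, R) t(k+R, k)` converges as `k → ∞`.
-/

set_option autoImplicit false

open Finset Filter Topology

namespace Pool.Agent.J6H81.TuranLimit

open Pool.Agent.H688R3.TuranGen Pool.Agent.H613T Pool.Agent.W724.TG Pool.Agent.R81.UDC

theorem td_t (R k : ℕ) : TD R k (t k (k + R)) := by
  intro n
  obtain ⟨F, hF, hFc⟩ := exists_cov (r := k) (m := k + R) (by omega) n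
  refine ⟨F, ⟨fun Z hZ => ⟨subset_univ _, hF.1 Z hZ⟩, fun Y _ hY => hF.2 Y hY⟩, ?_⟩
  rw [hFc]
  exact c_le_t _ _ _

theorem t_le_of_TD {R k : ℕ} {δ : ℝ} (h : TD R k δ) : t k (k + R) ≤ δ := by
  refine le_of_tendsto (tendsto_c k (k + R)) ?_
  filter_upwards [eventually_ge_atTop k] with n hn
  rw [div_le_iff₀ (choose_pos' hn)]
  obtain ⟨F, hF, hFc⟩ := h n
  exact (c_le_card ⟨fun e he => (hF.1 e he).2, fun S hS => hF.2 S (subset_univ _) hS⟩).trans hFc

theorem choose_posR (R k : ℕ) : (0 : ℝ) < ((k + R).choose R : ℝ) := by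
  exact_mod_cast Nat.choose_pos (by omega)

theorem gr_B (R k : ℕ) : GR R k (B R k) := by
  refine (td_t R k).mono (le_of_eq ?_)
  unfold B
  have := choose_posR R k
  field_simp

theorem B_le_of_GR {R k : ℕ} {s : ℝ} (h : GR R k s) : B R k ≤ s := by
  have h1 := t_le_of_TD h
  have := choose_posR R k
  rw [le_div_iff₀ this] at h1
  unfold B
  linarith

theorem B_nonneg (R k : ℕ) : 0 ≤ B R k := by
  unfold B
  exact mul_nonneg (Nat.cast_nonneg _) (t_nonneg (by omega))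

theorem t_le_one (R k : ℕ) : t k (k + R) ≤ 1 := t_le_of_TD (TD.trivial R k)

/-- constants for all smaller gaps -/
noncomputable def sc (g : ℕ) : ℝ := if g = 0 then 1 else 4 + 10 * g * Real.log (3 * g)

theorem sc_nonneg (g : ℕ) : 0 ≤ sc g := by
  unfold sc
  split_ifs with h
  · norm_num
  · have : (1 : ℝ) ≤ g := by exact_mod_cast Nat.one_le_iff_ne_zero.2 h
    have h2 : 0 ≤ Real.log (3 * (g : ℝ)) := Real.log_nonneg (by linarith)
    positivity

theorem low {g m : ℕ} (hm : 2 ≤ m) : GR g m (sc g) := by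
  unfold sc
  split_ifs with h
  · subst h
    unfold GR
    simp only [Nat.choose_zero_right, Nat.cast_one, div_one]
    exact TD.zero m
  · exact (gr_B g m).mono (B_le (Nat.one_le_iff_ne_zero.2 h) m hm)

/-- lower Poisson tail -/
theorem tail {θ : ℝ} (hθ : 0 < θ) (k : ℕ) :
    Real.exp (-((1 + θ) * k)) * ∑ j ∈ range k, ((1 + θ) * (k : ℝ)) ^ j / (j.factorial : ℝ) ≤
      ((1 + θ) * Real.exp (-θ)) ^ k := by
  have h1 : (0 : ℝ) < 1 + θ := by linarith
  have h2 : ∑ j ∈ range k, ((1 + θ) * (k : ℝ)) ^ j / (j.factorial : ℝ) ≤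
      (1 + θ) ^ k * ∑ j ∈ range k, (k : ℝ) ^ j / (j.factorial : ℝ) := by
    rw [mul_sum]
    refine sum_le_sum fun j hj => ?_
    rw [mul_pow, mul_div_assoc]
    apply mul_le_mul_of_nonneg_right _ (by positivity)
    exact pow_le_pow_right₀ (by linarith) (mem_range.1 hj).le
  have h3 : ∑ j ∈ range k, (k : ℝ) ^ j / (j.factorial : ℝ) ≤ Real.exp k :=
    Real.sum_le_exp_of_nonneg (by positivity) k
  have h4 : (0 : ℝ) < (1 + θ) ^ k := by positivity
  calc Real.exp (-((1 + θ) * k)) * ∑ j ∈ range k, ((1 + θ) * (k : ℝ)) ^ j / (j.factorial : ℝ)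
      ≤ Real.exp (-((1 + θ) * k)) * ((1 + θ) ^ k * Real.exp k) := by
        apply mul_le_mul_of_nonneg_left _ (Real.exp_pos _).le
        exact h2.trans (mul_le_mul_of_nonneg_left h3 h4.le)
    _ = (1 + θ) ^ k * (Real.exp (-((1 + θ) * k)) * Real.exp k) := by ring
    _ = (1 + θ) ^ k * Real.exp (-θ) ^ k := by
        rw [← Real.exp_add, ← Real.exp_nat_mul]
        congr 2
        ring
    _ = _ := by rw [mul_pow]

theorem pow_le_choose (R k : ℕ) : (k : ℝ) ^ R / (R.factorial : ℝ) ≤ ((k + R).choose R : ℝ) := by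
  rw [div_le_iff₀ (by positivity)]
  have h1 : (k + R + 1 - R) ^ R ≤ (k + R).descFactorial R := Nat.pow_sub_le_descFactorial _ R
  rw [Nat.descFactorial_eq_factorial_mul_choose] at h1
  have h2 : k ^ R ≤ R.factorial * (k + R).choose R := by
    refine le_trans (Nat.pow_le_pow_left (by omega) R) h1
  have h3 : ((k ^ R : ℕ) : ℝ) ≤ ((R.factorial * (k + R).choose R : ℕ) : ℝ) := by exact_mod_cast h2
  push_cast at h3
  linarith

/-- the small densities: `1` below `k`, `t(k+R, k)` from `k` on -/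
noncomputable def tt (R k : ℕ) (j : ℕ) : ℝ := if j < k then 1 else t k (k + R)

theorem tt_TD (R k j : ℕ) : TD R j (tt R k j) := by
  unfold tt
  split_ifs with h
  · exact TD.trivial R j
  · exact (td_t R k).of_le (by omega)

/-- upper bounds for the terms of the recursion -/
noncomputable def U (R : ℕ) (M θ ρ : ℝ) (i k : ℕ) : ℝ :=
  if i + 1 = R then (1 / (1 - 5 / (k : ℝ))) ^ R *
      ((1 + θ) ^ R * M + ((1 + θ) * (k : ℝ)) ^ R * ρ ^ k + ρ ^ k)
  else (1 / (1 - 5 / (k : ℝ))) ^ (i + 1) * (k : ℝ) ^ (R - (i + 1)) *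
      (((1 + θ) * (k : ℝ)) ^ (i + 1) * ρ ^ k + ρ ^ k) * sc (R - (i + 1))

theorem lim_pow {ρ : ℝ} (h0 : 0 ≤ ρ) (h1 : ρ < 1) (m : ℕ) :
    Tendsto (fun k : ℕ => (k : ℝ) ^ m * ρ ^ k) atTop (𝓝 0) :=
  tendsto_pow_const_mul_const_pow_of_abs_lt_one m (by rw [abs_of_nonneg h0]; exact h1)

theorem lim_inv : Tendsto (fun k : ℕ => 1 / (1 - 5 / (k : ℝ))) atTop (𝓝 1) := by
  have h1 : Tendsto (fun k : ℕ => 5 / (k : ℝ)) atTop (𝓝 0) :=
    tendsto_const_div_atTop_nhds_zero_nat 5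
  have h2 : Tendsto (fun k : ℕ => 1 - 5 / (k : ℝ)) atTop (𝓝 (1 - 0)) := h1.const_sub 1
  rw [sub_zero] at h2
  have h3 := (tendsto_const_nhds (x := (1 : ℝ)) (f := (atTop : Filter ℕ))).div h2 one_ne_zero
  rw [div_one] at h3
  exact h3

theorem lim_U {R : ℕ} {M θ ρ : ℝ} (h0 : 0 ≤ ρ) (h1 : ρ < 1) (i : ℕ) :
    Tendsto (U R M θ ρ i) atTop (𝓝 (if i + 1 = R then (1 + θ) ^ R * M else 0)) := by
  have hz := lim_pow h0 h1
  have hρ : Tendsto (fun k : ℕ => ρ ^ k) atTop (𝓝 0) := tendsto_pow_atTop_nhds_zero_of_lt_one h0 h1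
  by_cases h : i + 1 = R
  · have e : U R M θ ρ i = fun k : ℕ => (1 / (1 - 5 / (k : ℝ))) ^ R *
      ((1 + θ) ^ R * M + (1 + θ) ^ R * ((k : ℝ) ^ R * ρ ^ k) + ρ ^ k) := by
      funext k
      unfold U
      rw [if_pos h, mul_pow]
      ring
    rw [e, if_pos h]
    have h2 := (lim_inv.pow R).mul (((hz R).const_mul ((1 + θ) ^ R)).const_add ((1 + θ) ^ R * M) |>.add hρ)
    rw [one_pow, one_mul, mul_zero, add_zero, add_zero] at h2
    exact h2
  · have e : U R M θ ρ i = fun k : ℕ => (1 / (1 - 5 / (k : ℝ))) ^ (i + 1) *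
      ((1 + θ) ^ (i + 1) * ((k : ℝ) ^ ((R - (i + 1)) + (i + 1)) * ρ ^ k) +
        ((k : ℝ) ^ (R - (i + 1)) * ρ ^ k)) * sc (R - (i + 1)) := by
      funext k
      unfold U
      rw [if_neg h, mul_pow, pow_add]
      ring
    rw [e, if_neg h]
    have h2 := ((lim_inv.pow (i + 1)).mul (((hz (R - (i + 1) + (i + 1))).const_mul
      ((1 + θ) ^ (i + 1))).add (hz (R - (i + 1))))).mul_const (sc (R - (i + 1)))
    rw [one_pow, one_mul, mul_zero, add_zero, zero_mul] at h2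
    exact h2

theorem lim_sum {R : ℕ} (hR : 1 ≤ R) {M θ ρ : ℝ} (h0 : 0 ≤ ρ) (h1 : ρ < 1) :
    Tendsto (fun k => ∑ i ∈ range R, U R M θ ρ i k) atTop (𝓝 ((1 + θ) ^ R * M)) := by
  have h := tendsto_finset_sum (range R) (fun i _ => lim_U (R := R) (M := M) (θ := θ) h0 h1 i)
  have e : ∑ i ∈ range R, (if i + 1 = R then (1 + θ) ^ R * M else 0) = (1 + θ) ^ R * M := by
    rw [Finset.sum_eq_single (R - 1)]
    · rw [if_pos (by omega)]
    · intro b hb hb2
      rw [mem_range] at hb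
      rw [if_neg (by omega)]
    · intro hh
      rw [mem_range] at hh
      omega
  rw [e] at h
  exact h

end Pool.Agent.J6H81.TuranLimit
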