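import Pool.Agent.J6H81.TuranLimit.Step
import Pool.Agent.J6H81.TuranLimit.Collapse

/-!
The limit for finite vertex sets.
-/

set_option autoImplicit false

open Finset Filter Topology

namespace Pool.Agent.J6H81.TuranLimit

open Pool.Agent.H688R3.TuranGen Pool.Agent.H613T Pool.Agent.H120R2.Clique Pool.Agent.R81.UDC

/-- the normalised relative size of the least systems on `n` points -/
noncomputable def b (R r n : ℕ) : ℝ :=
  ((r + R).choose R : ℝ) * (c r (r + R) n / (n.choose r : ℝ))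

theorem b_le_B {R r n : ℕ} (h : r ≤ n) : b R r n ≤ B R r := by
  unfold b B
  apply mul_le_mul_of_nonneg_left _ (Nat.cast_nonneg _)
  rw [div_le_iff₀ (choose_pos' h)]
  exact c_le_t _ _ _

theorem b_nonneg (R r n : ℕ) : 0 ≤ b R r n := by
  unfold b
  exact mul_nonneg (Nat.cast_nonneg _) (div_nonneg (c_nonneg (by omega) n) (Nat.cast_nonneg _))

/-- every system contains at least one of the `C(k+R, R)` subsets -/
theorem one_le_B (R k : ℕ) : 1 ≤ B R k := by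
  have h1 : 1 ≤ c k (k + R) (k + R) := by
    obtain ⟨F, hF, hFc⟩ := exists_cov (r := k) (m := k + R) (by omega) (k + R)
    obtain ⟨e, he, -⟩ := hF.2 univ (by rw [card_univ, Fintype.card_fin])
    have : 1 ≤ F.card := card_pos.2 ⟨e, he⟩
    rw [← hFc]
    exact_mod_cast this
  have h2 := c_le_t k (k + R) (k + R)
  unfold B
  have e : (k + R).choose R = (k + R).choose k := by rw [Nat.choose_symm_add]
  rw [e]
  linarith

theorem pow_div_fact (s : ℕ) : (s : ℝ) ^ s / (s.factorial : ℝ) ≤ Real.exp s :=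
  Real.pow_div_factorial_le_exp (s : ℝ) (Nat.cast_nonneg _) s

theorem P_le {n s K m : ℕ} (hn : 0 < n) (hsn : s ≤ n) (hK : s + m ≤ K) :
    (n.choose s : ℝ) * ((s : ℝ) / n) ^ K ≤ Real.exp s * ((s : ℝ) / n) ^ m := by
  have hn' : (0 : ℝ) < n := by exact_mod_cast hn
  have h1 : (n.choose s : ℝ) ≤ (n : ℝ) ^ s / (s.factorial : ℝ) := Nat.choose_le_pow_div s n
  have h0 : 0 ≤ (s : ℝ) / n := by positivity
  have h2 : (s : ℝ) / n ≤ 1 := by
    rw [div_le_one hn']
    exact_mod_cast hsn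
  have h3 : ((s : ℝ) / n) ^ K ≤ ((s : ℝ) / n) ^ (s + m) := pow_le_pow_of_le_one h0 h2 hK
  calc (n.choose s : ℝ) * ((s : ℝ) / n) ^ K
      ≤ ((n : ℝ) ^ s / (s.factorial : ℝ)) * ((s : ℝ) / n) ^ (s + m) :=
        mul_le_mul h1 h3 (by positivity) (by positivity)
    _ = (s : ℝ) ^ s / (s.factorial : ℝ) * ((s : ℝ) / n) ^ m := by
        rw [pow_add, div_pow]
        field_simp
    _ ≤ _ := mul_le_mul_of_nonneg_right (pow_div_fact s) (by positivity)

theorem lower1 {R r n m : ℕ} (hR : 1 ≤ R) (hm : R ≤ m) (hmr : m ≤ r) (hn : 4 * r ≤ n) :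
    B R (r + 4 * m) ≤ (6 * (r : ℝ)) ^ R * (Real.exp (4 * r) * (4 * (r : ℝ) / n) ^ m) +
      (1 + 4 * (m : ℝ) / (r + 1)) ^ R * b R r n := by
  have hr : 1 ≤ r := by omega
  have hn0 : 0 < n := by omega
  have hn' : (0 : ℝ) < n := by exact_mod_cast hn0
  have hr' : (0 : ℝ) < r := by exact_mod_cast hr
  have h1 := collapse (r := r) (s := r + 2 * m + R) (K := r + 4 * m) (R := R) (n := n) hn0
    (by omega) (by omega) (by omega)
  have h2 := P_le (n := n) (s := r + 2 * m + R) (K := r + 4 * m) (m := m) hn0 (by omega)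
    (by omega)
  have h3 : Real.exp ((r + 2 * m + R : ℕ) : ℝ) * (((r + 2 * m + R : ℕ) : ℝ) / n) ^ m ≤
      Real.exp (4 * r) * (4 * (r : ℝ) / n) ^ m := by
    have h4 : ((r + 2 * m + R : ℕ) : ℝ) ≤ 4 * (r : ℝ) := by
      exact_mod_cast (show r + 2 * m + R ≤ 4 * r by omega)
    apply mul_le_mul (Real.exp_le_exp.2 h4) _ (by positivity) (Real.exp_pos _).le
    apply pow_le_pow_left₀ (by positivity)
    exact div_le_div_of_nonneg_right h4 hn'.le
  have h5 : ((r + 4 * m + R).choose R : ℝ) ≤ (6 * (r : ℝ)) ^ R := by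
    have h6 : (r + 4 * m + R).choose R ≤ (r + 4 * m + R) ^ R := Nat.choose_le_pow _ _
    have h7 : (r + 4 * m + R) ^ R ≤ (6 * r) ^ R := Nat.pow_le_pow_left (by omega) R
    exact_mod_cast h6.trans h7
  have h8 : ((r + 4 * m + R).choose R : ℝ) ≤
      (1 + 4 * (m : ℝ) / (r + 1)) ^ R * ((r + R).choose R : ℝ) := by
    have h9 := choose_ratio' (show r ≤ r + 4 * m by omega) R
    have e : (((r + 4 * m : ℕ) : ℝ) + 1) / ((r : ℝ) + 1) = 1 + 4 * (m : ℝ) / (r + 1) := by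
      push_cast
      field_simp
      ring
    rwa [e] at h9
  have hδ0 : 0 ≤ c r (r + R) n / (n.choose r : ℝ) :=
    div_nonneg (c_nonneg (by omega) n) (Nat.cast_nonneg _)
  have hX : 0 ≤ Real.exp (4 * (r : ℝ)) * (4 * (r : ℝ) / n) ^ m := by positivity
  unfold B b
  calc ((r + 4 * m + R).choose R : ℝ) * t (r + 4 * m) (r + 4 * m + R)
      ≤ ((r + 4 * m + R).choose R : ℝ) *
        (Real.exp (4 * r) * (4 * (r : ℝ) / n) ^ m + c r (r + R) n / (n.choose r : ℝ)) := by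
        apply mul_le_mul_of_nonneg_left _ (Nat.cast_nonneg _)
        linarith
    _ = ((r + 4 * m + R).choose R : ℝ) * (Real.exp (4 * r) * (4 * (r : ℝ) / n) ^ m) +
        ((r + 4 * m + R).choose R : ℝ) * (c r (r + R) n / (n.choose r : ℝ)) := by ring
    _ ≤ (6 * (r : ℝ)) ^ R * (Real.exp (4 * r) * (4 * (r : ℝ) / n) ^ m) +
        ((1 + 4 * (m : ℝ) / (r + 1)) ^ R * ((r + R).choose R : ℝ)) *
          (c r (r + R) n / (n.choose r : ℝ)) :=
        add_le_add (mul_le_mul_of_nonneg_right h5 hX) (mul_le_mul_of_nonneg_right h8 hδ0)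
    _ = _ := by ring

/-- for `n / r` large the first term is small -/
theorem lower2 {R : ℕ} (hR : 1 ≤ R) {ε : ℝ} (hε : 0 < ε) (hε1 : ε ≤ 1 / 2) :
    ∃ C : ℕ, ∃ r₀ : ℕ, ∀ r : ℕ, r₀ ≤ r → ∀ n : ℕ, C * r ≤ n → ∃ k : ℕ, r ≤ k ∧
      B R k ≤ (6 * (r : ℝ)) ^ R * Real.exp (-(r : ℝ)) + (1 + 5 * ε) ^ R * b R r n := by
  obtain ⟨C, hC⟩ := exists_nat_ge (4 * Real.exp (5 / ε))
  obtain ⟨r₀, hr₀⟩ := exists_nat_ge (max (4 / ε) ((R : ℝ) / ε))
  have hC4 : 4 ≤ C := by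
    have h1 : (1 : ℝ) ≤ Real.exp (5 / ε) := Real.one_le_exp (by positivity)
    have h2 : (4 : ℝ) ≤ C := by linarith
    exact_mod_cast h2
  refine ⟨C, max r₀ 1, fun r hr n hn => ?_⟩
  have hr1 : 1 ≤ r := le_trans (le_max_right _ _) hr
  have hr' : (0 : ℝ) < r := by exact_mod_cast hr1
  have hrr : (r₀ : ℝ) ≤ r := by exact_mod_cast le_trans (le_max_left _ _) hr
  have g1 : 4 / ε ≤ r := (le_max_left _ _).trans (hr₀.trans hrr)
  have g2 : (R : ℝ) / ε ≤ r := (le_max_right _ _).trans (hr₀.trans hrr)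
  rw [div_le_iff₀ hε] at g1 g2
  set m : ℕ := ⌈ε * r⌉₊ with hm
  have hm1 : ε * r ≤ m := Nat.le_ceil _
  have hm2 : (m : ℝ) < ε * r + 1 := Nat.ceil_lt_add_one (by positivity)
  have hmR : R ≤ m := by
    have : (R : ℝ) ≤ m := by linarith
    exact_mod_cast this
  have hmr : m ≤ r := by
    have h1 : (m : ℝ) < r + 1 := by
      have : ε * r ≤ 1 / 2 * r := mul_le_mul_of_nonneg_right hε1 hr'.le
      linarith
    have h2 : m < r + 1 := by exact_mod_cast h1
    omega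
  have hn4 : 4 * r ≤ n := le_trans (Nat.mul_le_mul_right r hC4) hn
  have hn' : (0 : ℝ) < n := by
    have : 0 < n := by omega
    exact_mod_cast this
  refine ⟨r + 4 * m, by omega, (lower1 hR hmR hmr hn4).trans ?_⟩
  have h1 : 4 * (r : ℝ) / n ≤ Real.exp (-(5 / ε)) := by
    rw [div_le_iff₀ hn', Real.exp_neg, inv_mul_eq_div, le_div_iff₀ (Real.exp_pos _)]
    have h2 : (C : ℝ) * r ≤ n := by exact_mod_cast hn
    nlinarith [Real.exp_pos (5 / ε)]
  have h2 : (4 * (r : ℝ) / n) ^ m ≤ Real.exp (-(5 * r)) := by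
    calc (4 * (r : ℝ) / n) ^ m ≤ Real.exp (-(5 / ε)) ^ m :=
          pow_le_pow_left₀ (by positivity) h1 m
      _ = Real.exp (m * -(5 / ε)) := by rw [← Real.exp_nat_mul]
      _ ≤ Real.exp (-(5 * r)) := by
          apply Real.exp_le_exp.2
          have h3 : 5 * (r : ℝ) ≤ m * (5 / ε) := by
            rw [← mul_div_assoc, le_div_iff₀ hε]
            nlinarith
          linarith
  have h3 : Real.exp (4 * r) * (4 * (r : ℝ) / n) ^ m ≤ Real.exp (-(r : ℝ)) := by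
    calc Real.exp (4 * r) * (4 * (r : ℝ) / n) ^ m ≤ Real.exp (4 * r) * Real.exp (-(5 * r)) :=
          mul_le_mul_of_nonneg_left h2 (Real.exp_pos _).le
      _ = Real.exp (-(r : ℝ)) := by
          rw [← Real.exp_add]
          congr 1
          ring
  have h4 : 1 + 4 * (m : ℝ) / (r + 1) ≤ 1 + 5 * ε := by
    have : 4 * (m : ℝ) / (r + 1) ≤ 5 * ε := by
      rw [div_le_iff₀ (by positivity)]
      nlinarith
    linarith
  have h5 : (1 + 4 * (m : ℝ) / (r + 1)) ^ R ≤ (1 + 5 * ε) ^ R :=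
    pow_le_pow_left₀ (by positivity) h4 R
  refine add_le_add (mul_le_mul_of_nonneg_left h3 (by positivity))
    (mul_le_mul_of_nonneg_right h5 (b_nonneg R r n))

/-- **The limit for finite vertex sets.** -/
theorem fin_limit {R : ℕ} (hR : 1 ≤ R) {μ : ℝ} (hμ : Tendsto (B R) atTop (𝓝 μ)) {ε : ℝ}
    (hε : 0 < ε) : ∃ C : ℕ, ∃ r₀ : ℕ, ∀ r : ℕ, r₀ ≤ r → ∀ n : ℕ, C * r ≤ n →
      |b R r n - μ| ≤ ε := by
  obtain ⟨η, hη0, hη1, hη2⟩ : ∃ η : ℝ, 0 < η ∧ η ≤ 1 / 2 ∧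
      (1 + 5 * η) ^ R * (μ - ε) < μ - ε / 2 := by
    have hc : Tendsto (fun η : ℝ => (1 + 5 * η) ^ R * (μ - ε)) (𝓝[>] 0)
        (𝓝 ((1 + 5 * 0) ^ R * (μ - ε))) := by
      apply Tendsto.mono_left _ nhdsWithin_le_nhds
      exact Continuous.tendsto (f := fun η : ℝ => (1 + 5 * η) ^ R * (μ - ε)) (by fun_prop) 0
    have h1 : (1 + 5 * (0 : ℝ)) ^ R * (μ - ε) < μ - ε / 2 := by
      simp
      linarith
    have h4 : ∀ᶠ η : ℝ in 𝓝[>] 0, η ≤ 1 / 2 := by
      apply eventually_nhdsWithin_of_eventually_nhds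
      exact (tendsto_id (α := ℝ)).eventually_le_const (show (0 : ℝ) < 1 / 2 by norm_num)
    obtain ⟨η, ⟨h2, h3⟩, h5⟩ :=
      (((hc.eventually_lt_const h1).and self_mem_nhdsWithin).and h4).exists
    exact ⟨η, h3, h5, h2⟩
  obtain ⟨C, r₁, hC⟩ := lower2 hR hη0 hη1
  have e1 : Tendsto (fun r : ℕ => (6 * (r : ℝ)) ^ R * Real.exp (-(r : ℝ))) atTop (𝓝 0) := by
    have h1 := (lim_pow (Real.exp_pos (-1)).le (by
      rw [← Real.exp_zero]
      exact Real.exp_lt_exp.2 (by norm_num)) R).const_mul (6 ^ R)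
    rw [mul_zero] at h1
    refine h1.congr fun r => ?_
    rw [mul_pow, ← Real.exp_nat_mul]
    have : (r : ℝ) * -1 = -(r : ℝ) := by ring
    rw [this]
    ring
  have e2 : ∀ᶠ r : ℕ in atTop, (6 * (r : ℝ)) ^ R * Real.exp (-(r : ℝ)) < ε / 4 :=
    e1.eventually_lt_const (by positivity)
  have e3 : ∀ᶠ k : ℕ in atTop, μ - ε / 4 < B R k := hμ.eventually_const_lt (by linarith)
  have e4 : ∀ᶠ k : ℕ in atTop, B R k < μ + ε := hμ.eventually_lt_const (by linarith)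
  obtain ⟨r₂, hr₂⟩ := eventually_atTop.1 ((e2.and e3).and e4)
  refine ⟨max C 1, max r₁ r₂, fun r hr n hn => ?_⟩
  have hnC : C * r ≤ n := le_trans (Nat.mul_le_mul_right r (le_max_left _ _)) hn
  have hnr : r ≤ n := by
    have := le_trans (Nat.mul_le_mul_right r (le_max_right C 1)) hn
    omega
  obtain ⟨k, hk, hkB⟩ := hC r (le_trans (le_max_left _ _) hr) n hnC
  have hr2 : r₂ ≤ r := le_trans (le_max_right _ _) hr
  have f2 := (hr₂ r hr2).1.1
  have f3 := (hr₂ k (hr2.trans hk)).1.2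
  have f4 := (hr₂ r hr2).2
  have hup := (b_le_B (R := R) hnr)
  rw [abs_le]
  constructor
  · by_contra hcon
    push Not at hcon
    have h1 : b R r n < μ - ε := by linarith
    have h2 : (1 + 5 * η) ^ R * b R r n ≤ (1 + 5 * η) ^ R * (μ - ε) :=
      mul_le_mul_of_nonneg_left h1.le (by positivity)
    linarith
  · linarith

end Pool.Agent.J6H81.TuranLimit
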