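import Pool.Agent.J6H81.TuranLimit.Core

/-!
One small value of the normalised covering density bounds all large ones.
-/

set_option autoImplicit false

open Finset Filter Topology

namespace Pool.Agent.J6H81.TuranLimit

open Pool.Agent.H688R3.TuranGen Pool.Agent.H613T Pool.Agent.W724.TG Pool.Agent.R81.UDC

theorem EE_le {R k : ℕ} {θ : ℝ} (hθ : 0 < θ) {ρ : ℝ} (hρ : (1 + θ) * Real.exp (-θ) ≤ ρ) :
    EE (tt R k) (t k (k + R)) k ((1 + θ) * k) ≤ t k (k + R) + ρ ^ k := by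
  have ht0 : 0 ≤ t k (k + R) := t_nonneg (by omega)
  unfold EE
  have h1 := tail hθ k
  have h2 : ((1 + θ) * Real.exp (-θ)) ^ k ≤ ρ ^ k := by
    have h3 : (0 : ℝ) < 1 + θ := by linarith
    exact pow_le_pow_left₀ (by positivity) hρ k
  have h4 : ∑ j ∈ range k, (tt R k j - t k (k + R)) * ((1 + θ) * (k : ℝ)) ^ j / (j.factorial : ℝ) ≤
      ∑ j ∈ range k, ((1 + θ) * (k : ℝ)) ^ j / (j.factorial : ℝ) := by
    refine sum_le_sum fun j hj => ?_
    have h5 : tt R k j = 1 := by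
      unfold tt
      rw [if_pos (mem_range.1 hj)]
    have h6 : (0 : ℝ) ≤ ((1 + θ) * (k : ℝ)) ^ j / (j.factorial : ℝ) := by positivity
    rw [h5, mul_div_assoc]
    nlinarith
  have h5 := mul_le_mul_of_nonneg_left h4 (Real.exp_pos (-((1 + θ) * (k : ℝ)))).le
  linarith

theorem exp_le {θ : ℝ} (hθ : 0 < θ) {ρ : ℝ} (hρ : Real.exp (-1) ≤ ρ) (k : ℕ) :
    Real.exp (-((1 + θ) * k)) ≤ ρ ^ k := by
  calc Real.exp (-((1 + θ) * k)) ≤ Real.exp (-(k : ℝ)) := by
        apply Real.exp_le_exp.2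
        have : (0 : ℝ) ≤ θ * k := by positivity
        linarith
    _ = Real.exp (-1) ^ k := by
        rw [← Real.exp_nat_mul]
        congr 1
        ring
    _ ≤ ρ ^ k := pow_le_pow_left₀ (Real.exp_pos _).le hρ k

theorem kap_le {R k i : ℕ} (hi : i + 1 ≤ R) (hk : 6 ≤ k) :
    kap R (1 - 5 / (k : ℝ)) (1 / (k : ℝ)) (i + 1) ≤
      (1 / (1 - 5 / (k : ℝ))) ^ (i + 1) * (k : ℝ) ^ (R - (i + 1)) := by
  have hk' : (6 : ℝ) ≤ k := by exact_mod_cast hk
  have hα : 0 < 1 - 5 / (k : ℝ) := by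
    rw [sub_pos, div_lt_one (by linarith)]
    linarith
  have hc : (1 : ℝ) ≤ (R.choose (i + 1) : ℝ) := by
    exact_mod_cast Nat.choose_pos hi
  have hkp : (0 : ℝ) < k := by linarith
  unfold kap
  have e : (1 / (1 - 5 / (k : ℝ))) ^ (i + 1) * (k : ℝ) ^ (R - (i + 1)) =
      1 / (1 * (1 - 5 / (k : ℝ)) ^ (i + 1) * (1 / (k : ℝ)) ^ (R - (i + 1))) := by
    rw [one_div_pow, one_div_pow, one_mul]
    field_simp
  rw [e]
  apply one_div_le_one_div_of_le (by positivity)
  gcongr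

theorem term_le {R k i : ℕ} (hi : i < R) (hk : 6 ≤ k) {M θ ρ : ℝ} (hθ : 0 < θ)
    (h1 : (1 + θ) * Real.exp (-θ) ≤ ρ) (h2 : Real.exp (-1) ≤ ρ) (hM : B R k ≤ M) :
    kap R (1 - 5 / (k : ℝ)) (1 / (k : ℝ)) (i + 1) *
      (pl R (tt R k) (t k (k + R)) k ((1 + θ) * k) (i + 1) + ρ ^ k) * sc (R - (i + 1)) ≤
      U R M θ ρ i k := by
  have hk' : (6 : ℝ) ≤ k := by exact_mod_cast hk
  have hα : 0 < 1 - 5 / (k : ℝ) := by
    rw [sub_pos, div_lt_one (by linarith)]
    linarith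
  have hρ0 : 0 < ρ := lt_of_lt_of_le (Real.exp_pos _) h2
  have hα' : 0 < 1 / (1 - 5 / (k : ℝ)) := by positivity
  have ht0 : 0 ≤ t k (k + R) := t_nonneg (by omega)
  have hsc := sc_nonneg (R - (i + 1))
  have hkap := kap_le (R := R) (k := k) (i := i) (by omega) hk
  have hkap0 : 0 ≤ kap R (1 - 5 / (k : ℝ)) (1 / (k : ℝ)) (i + 1) := by
    unfold kap
    positivity
  unfold pl U
  have hf : (1 : ℝ) ≤ ((i + 1).factorial : ℝ) := by exact_mod_cast Nat.factorial_pos _
  by_cases h : i + 1 = R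
  · rw [if_pos h, if_pos h, h]
    have e0 : R - R = 0 := by omega
    rw [h, e0] at hkap
    rw [pow_zero, mul_one] at hkap
    have e1 : sc (R - R) = 1 := by rw [e0]; simp [sc]
    rw [e1, mul_one]
    refine mul_le_mul (by rw [← h] at hkap ⊢; exact hkap) ?_ ?_ (by positivity)
    · have h3 := EE_le (R := R) (k := k) hθ h1
      have h4 : 0 ≤ ((1 + θ) * (k : ℝ)) ^ R / (R.factorial : ℝ) := by positivity
      have h5 := mul_le_mul_of_nonneg_left h3 h4
      have h6 : ((1 + θ) * (k : ℝ)) ^ R / (R.factorial : ℝ) * t k (k + R) ≤ (1 + θ) ^ R * M := by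
        calc ((1 + θ) * (k : ℝ)) ^ R / (R.factorial : ℝ) * t k (k + R)
            = (1 + θ) ^ R * ((k : ℝ) ^ R / (R.factorial : ℝ) * t k (k + R)) := by
              rw [mul_pow]; ring
          _ ≤ (1 + θ) ^ R * (((k + R).choose R : ℝ) * t k (k + R)) := by
              apply mul_le_mul_of_nonneg_left _ (by positivity)
              exact mul_le_mul_of_nonneg_right (pow_le_choose R k) ht0
          _ ≤ (1 + θ) ^ R * M := by
              apply mul_le_mul_of_nonneg_left _ (by positivity)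
              exact hM
      have h7 : ((1 + θ) * (k : ℝ)) ^ R / (R.factorial : ℝ) * ρ ^ k ≤
          ((1 + θ) * (k : ℝ)) ^ R * ρ ^ k := by
        apply mul_le_mul_of_nonneg_right _ (by positivity)
        apply div_le_self (by positivity)
        rw [← h]; exact hf
      rw [mul_add] at h5
      linarith
    · have h8 : 0 ≤ EE (tt R k) (t k (k + R)) k ((1 + θ) * k) := by
        unfold EE
        apply add_nonneg ht0
        apply mul_nonneg (Real.exp_pos _).le
        refine sum_nonneg fun j hj => ?_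
        have h5 : tt R k j = 1 := by
          unfold tt
          rw [if_pos (mem_range.1 hj)]
        rw [h5]
        have := t_le_one R k
        have h9 : 0 ≤ 1 - t k (k + R) := by linarith
        positivity
      positivity
  · rw [if_neg h, if_neg h]
    apply mul_le_mul_of_nonneg_right _ hsc
    refine mul_le_mul hkap ?_ (by positivity) (by positivity)
    have h3 := exp_le hθ h2 k
    have h4 : ((1 + θ) * (k : ℝ)) ^ (i + 1) / ((i + 1).factorial : ℝ) ≤
        ((1 + θ) * (k : ℝ)) ^ (i + 1) := div_le_self (by positivity) hf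
    have h5 : ((1 + θ) * (k : ℝ)) ^ (i + 1) / ((i + 1).factorial : ℝ) *
        Real.exp (-((1 + θ) * k)) ≤ ((1 + θ) * (k : ℝ)) ^ (i + 1) * ρ ^ k :=
      mul_le_mul h4 h3 (Real.exp_pos _).le (by positivity)
    linarith

/-- **One small value bounds all large ones.** -/
theorem step {R : ℕ} (hR : 1 ≤ R) {M T : ℝ} (hM : ∃ᶠ k in atTop, B R k ≤ M) (hT : M < T) :
    ∀ᶠ k in atTop, B R k ≤ T := by
  obtain ⟨θ, hθ, hθT⟩ : ∃ θ : ℝ, 0 < θ ∧ (1 + θ) ^ R * M < T := by
    have hc : Tendsto (fun θ : ℝ => (1 + θ) ^ R * M) (𝓝[>] 0) (𝓝 ((1 + 0) ^ R * M)) := by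
      apply Tendsto.mono_left _ nhdsWithin_le_nhds
      exact Continuous.tendsto (f := fun θ : ℝ => (1 + θ) ^ R * M) (by fun_prop) 0
    have h1 : (1 + (0 : ℝ)) ^ R * M < T := by simpa using hT
    obtain ⟨θ, h2, h3⟩ := ((hc.eventually_lt_const h1).and self_mem_nhdsWithin).exists
    exact ⟨θ, h3, h2⟩
  obtain ⟨ρ, hr1, hr2, hρ1⟩ : ∃ ρ : ℝ, (1 + θ) * Real.exp (-θ) ≤ ρ ∧ Real.exp (-1) ≤ ρ ∧
      ρ < 1 := by
    refine ⟨max ((1 + θ) * Real.exp (-θ)) (Real.exp (-1)), le_max_left _ _, le_max_right _ _,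
      max_lt ?_ ?_⟩
    · have := Real.add_one_lt_exp (x := θ) hθ.ne'
      rw [Real.exp_neg, ← div_eq_mul_inv, div_lt_one (Real.exp_pos _)]
      linarith
    · rw [← Real.exp_zero]
      exact Real.exp_lt_exp.2 (by norm_num)
  have hρ0 : 0 < ρ := lt_of_lt_of_le (Real.exp_pos _) hr2
  have e1 := lim_sum hR (M := M) (θ := θ) hρ0.le hρ1
  have e2 : Tendsto (fun k : ℕ => T * (1 - 2 * ((k : ℝ) ^ R * ρ ^ k))) atTop (𝓝 T) := by
    have := (((lim_pow hρ0.le hρ1 R).const_mul 2).const_sub 1).const_mul T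
    simpa using this
  have e3 : ∀ᶠ k in atTop, ∑ i ∈ range R, U R M θ ρ i k < T * (1 - 2 * ((k : ℝ) ^ R * ρ ^ k)) :=
    e1.eventually_lt e2 hθT
  have e4 : ∀ᶠ k : ℕ in atTop, 2 * ((k : ℝ) ^ R * ρ ^ k) < 1 := by
    have := (lim_pow hρ0.le hρ1 R).const_mul 2
    rw [mul_zero] at this
    exact this.eventually_lt_const one_pos
  obtain ⟨k, ⟨hk, f3⟩, f4, f5⟩ :=
    ((hM.and_eventually e3).and_eventually (e4.and (eventually_ge_atTop 11))).exists
  have hk' : (11 : ℝ) ≤ k := by exact_mod_cast f5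
  have hkp : (0 : ℝ) < k := by linarith
  have ht0 : 0 ≤ t k (k + R) := t_nonneg (by omega)
  have hτ : ∀ j, t k (k + R) ≤ tt R k j := by
    intro j
    unfold tt
    split_ifs
    · exact t_le_one R k
    · exact le_rfl
  have hJ : ∀ j ≥ k, tt R k j = t k (k + R) := by
    intro j hj
    unfold tt
    rw [if_neg (by omega)]
  have hρk : 0 < ρ ^ k := by positivity
  obtain ⟨D₀, hD₀⟩ := PG_eventually (R := R) (l := (1 + θ) * k) (by positivity)
    (tt_TD R k) (τ := t k (k + R)) (J := k) ht0 hτ hJ hρk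
  set p : ℕ → ℝ := fun i => pl R (tt R k) (t k (k + R)) k ((1 + θ) * k) i + ρ ^ k with hp
  have hEE : 0 ≤ EE (tt R k) (t k (k + R)) k ((1 + θ) * k) := by
    unfold EE
    apply add_nonneg ht0
    apply mul_nonneg (Real.exp_pos _).le
    refine sum_nonneg fun j hj => ?_
    have h9 : 0 ≤ tt R k j - t k (k + R) := by linarith [hτ j]
    positivity
  have hp0 : ∀ i, 0 ≤ p i := by
    intro i
    simp only [hp]
    unfold pl
    split_ifs
    · positivity
    · positivity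
  have g1 : 1 - 3 / (k : ℝ) - 2 * (1 / (k : ℝ)) = 1 - 5 / (k : ℝ) := by ring
  have g2 : 3 / (k : ℝ) - 2 * (1 / (k : ℝ)) = 1 / (k : ℝ) := by ring
  have g3 : 5 / (k : ℝ) < 1 := by
    rw [div_lt_one hkp]
    linarith
  have g4 : 0 < 1 / (k : ℝ) := by positivity
  have key := asymptotic (R := R) hR (a := 1 - 3 / (k : ℝ)) (b := 3 / (k : ℝ)) (δ := 1 / (k : ℝ))
    (by ring) g4 (by linarith) (by linarith) (p := p) (s := sc) hp0 sc_nonneg
    (D₀ := max D₀ 2) (fun D hD => hD₀ D (le_trans (le_max_left _ _) hD))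
    (fun g _ m hm => low (le_trans (le_max_right _ _) hm))
    (ρ := 2 * ((k : ℝ) ^ R * ρ ^ k)) (T := T) ?_ f4 ?_
  · obtain ⟨K, hK⟩ := key
    filter_upwards [eventually_ge_atTop K] with m hm
    exact B_le_of_GR (hK m hm)
  · rw [g2]
    have h3 := exp_le hθ hr2 k
    have h4 : p 0 = Real.exp (-((1 + θ) * k)) + ρ ^ k := by
      simp only [hp]
      unfold pl
      rw [if_neg (by omega)]
      simp
    rw [h4, one_div_pow, div_div_eq_mul_div, div_one]
    have h5 : (0 : ℝ) ≤ (k : ℝ) ^ R := by positivity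
    nlinarith
  · rw [g1, g2]
    refine lt_of_le_of_lt ?_ f3
    unfold CR
    refine sum_le_sum fun i hi => ?_
    exact term_le (mem_range.1 hi) (by omega) hθ hr1 hr2 hk

/-- the normalised densities are bounded -/
theorem B_bdd {R : ℕ} (hR : 1 ≤ R) : ∀ᶠ k in atTop, B R k ≤ 4 + 10 * R * Real.log (3 * R) := by
  filter_upwards [eventually_ge_atTop 2] with k hk
  exact B_le hR k hk

/-- **The limit exists.** -/
theorem limit_exists {R : ℕ} (hR : 1 ≤ R) : ∃ μ : ℝ, Tendsto (B R) atTop (𝓝 μ) := by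
  have hb : IsBoundedUnder (· ≥ ·) atTop (B R) :=
    isBoundedUnder_of ⟨0, fun k => B_nonneg R k⟩
  have ha : IsBoundedUnder (· ≤ ·) atTop (B R) :=
    ⟨_, eventually_map.2 (B_bdd hR)⟩
  refine ⟨liminf (B R) atTop, ?_⟩
  rw [Metric.tendsto_atTop']
  intro ε hε
  have h1 : ∃ᶠ k in atTop, B R k < liminf (B R) atTop + ε / 2 :=
    frequently_lt_of_liminf_lt ha.isCoboundedUnder_ge (by linarith)
  have h2 := step hR (M := liminf (B R) atTop + ε / 2) (T := liminf (B R) atTop + 3 * ε / 4)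
    (h1.mono fun k hk => hk.le) (by linarith)
  have h3 : ∀ᶠ k in atTop, liminf (B R) atTop - ε < B R k :=
    eventually_lt_of_lt_liminf (by linarith) hb
  obtain ⟨N, hN⟩ := eventually_atTop.1 (h2.and h3)
  refine ⟨N, fun n hn => ?_⟩
  obtain ⟨h4, h5⟩ := hN n hn.le
  rw [Real.dist_eq, abs_lt]
  constructor <;> linarith

end Pool.Agent.J6H81.TuranLimit
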